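import Pool.Agent.R632.FPPAct

/-! Every number in `[0, 1]` is the fixed-point proportion of a finitely generated group of
automorphisms of the `d`-regular rooted tree. -/

namespace Pool.Agent.Results.MP_80cb54_al.AllValues

open Filter Topology Pool.Agent.R632.FPPAct

/-- The automorphism group of the rooted tree of the words over the alphabet `X`: the permutations of
the words which preserve the length and the relation of being an initial segment. -/
def treeAut (X : Type) : Subgroup (Equiv.Perm (List X)) where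
  carrier := {g | (∀ v, (g v).length = v.length) ∧ ∀ v w : List X, v <+: w ↔ g v <+: g w}
  mul_mem' := by
    rintro g h ⟨hg, hg'⟩ ⟨hh, hh'⟩
    refine ⟨fun v => ?_, fun v w => ?_⟩
    · rw [Equiv.Perm.mul_apply, hg, hh]
    · rw [Equiv.Perm.mul_apply, Equiv.Perm.mul_apply, ← hg', ← hh']
  one_mem' := ⟨fun _ => rfl, fun _ _ => Iff.rfl⟩
  inv_mem' := by
    rintro g ⟨hg, hg'⟩
    have h : ∀ v, g (g⁻¹ v) = v := fun v => g.apply_symm_apply v
    refine ⟨fun v => ?_, fun v w => ?_⟩
    · have := hg (g⁻¹ v)
      rw [← this, h]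
    · rw [hg' (g⁻¹ v) (g⁻¹ w), h, h]

/-- The action of `g` on the level `n`. -/
def restrictLevel {X : Type} (n : ℕ) (g : Equiv.Perm (List X)) :
    {v : List X // v.length = n} → List X :=
  fun v => g v

/-- `G_n`: the set of all actions of elements of `G` on the level `n`. -/
def levelGroup {X : Type} (G : Subgroup (Equiv.Perm (List X))) (n : ℕ) :
    Set ({v : List X // v.length = n} → List X) :=
  restrictLevel n '' (G : Set (Equiv.Perm (List X)))

/-- The proportion of the elements of `G_n` which fix a vertex of level `n`. -/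
noncomputable def proportion {X : Type} (G : Subgroup (Equiv.Perm (List X))) (n : ℕ) : ℝ :=
  ({f | f ∈ levelGroup G n ∧ ∃ v, f v = v.1}.ncard : ℝ) / (levelGroup G n).ncard

/-- `FPP(G) = α`: the proportions converge to `α`. -/
def HasFPP {X : Type} (G : Subgroup (Equiv.Perm (List X))) (α : ℝ) : Prop :=
  Tendsto (proportion G) atTop (𝓝 α)

/-! ### counting in images -/

lemma ratio {A Z : Type*} [AddCommGroup A] [Fintype A] (ψ : A → Z)
    (hψ : ∀ a b c, ψ a = ψ b → ψ (a + c) = ψ (b + c)) (T : Set Z) :
    ({z | z ∈ Set.range ψ ∧ z ∈ T}.ncard : ℝ) / (Set.range ψ).ncard =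
      (Nat.card {a : A // ψ a ∈ T} : ℝ) / Fintype.card A := by
  classical
  set R : Finset Z := Finset.univ.image ψ with hR
  have h1 : Set.range ψ = (R : Set Z) := by
    rw [hR, Finset.coe_image, Finset.coe_univ, Set.image_univ]
  have h2 : {z | z ∈ Set.range ψ ∧ z ∈ T} = ((R.filter (· ∈ T) : Finset Z) : Set Z) := by
    rw [h1]
    ext z
    simp
  have hfib : ∀ b : A, (Finset.univ.filter (fun a => ψ a = ψ b)).card =
      (Finset.univ.filter (fun a => ψ a = ψ 0)).card := by
    intro b
    apply Finset.card_bij' (fun a _ => a - b) (fun a _ => a + b)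
    · intro a ha
      rw [Finset.mem_filter] at ha ⊢
      refine ⟨Finset.mem_univ _, ?_⟩
      have := hψ a b (-b) ha.2
      rwa [add_neg_cancel, ← sub_eq_add_neg] at this
    · intro a ha
      rw [Finset.mem_filter] at ha ⊢
      refine ⟨Finset.mem_univ _, ?_⟩
      have := hψ a 0 b ha.2
      rwa [zero_add] at this
    · intro a _
      exact sub_add_cancel a b
    · intro a _
      exact add_sub_cancel_right a b
  have hcount : ∀ P : Z → Prop, (Finset.univ.filter (fun a => P (ψ a))).card =
      (R.filter P).card * (Finset.univ.filter (fun a => ψ a = ψ 0)).card := by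
    intro P
    rw [Finset.card_eq_sum_card_fiberwise (f := ψ) (t := R.filter P)]
    · rw [← smul_eq_mul, ← Finset.sum_const]
      apply Finset.sum_congr rfl
      intro z hz
      rw [Finset.mem_filter, hR, Finset.mem_image] at hz
      obtain ⟨⟨b, _, rfl⟩, hP⟩ := hz
      rw [← hfib b, Finset.filter_filter]
      congr 1
      ext a
      simp only [Finset.mem_filter, Finset.mem_univ, true_and]
      constructor
      · exact fun h => h.2
      · exact fun h => ⟨by rw [h]; exact hP, h⟩
    · intro a ha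
      rw [Finset.mem_coe, Finset.mem_filter] at ha ⊢
      exact ⟨Finset.mem_image_of_mem _ (Finset.mem_univ _), ha.2⟩
  have h3 := hcount (· ∈ T)
  have h4 := hcount (fun _ => True)
  rw [Finset.filter_true, Finset.filter_true, Finset.card_univ] at h4
  have h5 : 0 < (Finset.univ.filter (fun a => ψ a = ψ 0)).card :=
    Finset.card_pos.mpr ⟨0, by simp⟩
  have h6 : 0 < R.card := Finset.card_pos.mpr ⟨ψ 0, Finset.mem_image_of_mem _ (Finset.mem_univ _)⟩
  rw [h2, h1, Set.ncard_coe_finset, Set.ncard_coe_finset, Nat.card_eq_fintype_card,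
    Fintype.card_subtype, h3, h4]
  have h7 : ((Finset.univ.filter (fun a => ψ a = ψ 0)).card : ℝ) ≠ 0 := by exact_mod_cast h5.ne'
  have h8 : (R.card : ℝ) ≠ 0 := by exact_mod_cast h6.ne'
  push_cast
  field_simp

/-! ### the whole action -/

section action

variable {X Y : Type} {p : ℕ} [hp : Fact p.Prime] (e : X ≃ ZMod p × Y)

/-- rotates the first letter -/
def rotHead (y : ZMod p) : List X → List X
  | [] => []
  | b :: w => rot e y b :: w

/-- the spine tree together with subtrees on which only `y` acts -/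
def Ract (t : Bool) (s : ℕ → ℕ) (x : ℤ) (y : ZMod p) : List X → List X
  | [] => []
  | a :: w => a :: (if t = true ∧ dig e a = 1 then rotHead e y w else S e s x y w)

/-- adding `k` levels with independent rotations on top -/
def Th : (k : ℕ) → (Fin k → ZMod p) → (List X → List X) → List X → List X
  | 0, _, f, w => f w
  | _ + 1, _, _, [] => []
  | k + 1, z, f, b :: w => rot e (z 0) b :: Th k (fun i => z i.succ) f w

/-- properties of the functions used -/
structure Good (f : List X → List X) : Prop where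
  len : ∀ w, (f w).length = w.length
  app : ∀ v w, f v <+: f (v ++ w)

lemma good_S (s : ℕ → ℕ) (x : ℤ) (y : ZMod p) : Good (S e s x y) :=
  ⟨fun w => S_length e _ s x y w le_rfl, fun v w => S_append e _ s x y v w le_rfl⟩

lemma good_rotHead (y : ZMod p) : Good (rotHead e y) := by
  constructor
  · intro w
    cases w <;> rfl
  · intro v w
    cases v with
    | nil => exact List.nil_prefix
    | cons b v =>
      rw [List.cons_append, rotHead, rotHead, List.cons_prefix_cons]
      exact ⟨rfl, List.prefix_append _ _⟩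

lemma good_Ract (t : Bool) (s : ℕ → ℕ) (x : ℤ) (y : ZMod p) : Good (Ract e t s x y) := by
  constructor
  · intro w
    cases w with
    | nil => rfl
    | cons a w =>
      rw [Ract]
      split_ifs
      · rw [List.length_cons, (good_rotHead e y).len, List.length_cons]
      · rw [List.length_cons, (good_S e s x y).len, List.length_cons]
  · intro v w
    cases v with
    | nil => exact List.nil_prefix
    | cons b v =>
      rw [List.cons_append, Ract, Ract, List.cons_prefix_cons]
      refine ⟨rfl, ?_⟩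
      split_ifs
      · exact (good_rotHead e y).app v w
      · exact (good_S e s x y).app v w

lemma good_Th (k : ℕ) : ∀ (z : Fin k → ZMod p) {f : List X → List X}, Good f →
    Good (Th e k z f) := by
  induction k with
  | zero => intro z f hf; exact ⟨fun w => hf.len w, fun v w => hf.app v w⟩
  | succ k ih =>
    intro z f hf
    constructor
    · intro w
      cases w with
      | nil => rfl
      | cons a w => rw [Th, List.length_cons, (ih _ hf).len, List.length_cons]
    · intro v w
      cases v with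
      | nil => exact List.nil_prefix
      | cons b v =>
        rw [List.cons_append, Th, Th, List.cons_prefix_cons]
        exact ⟨rfl, (ih _ hf).app v w⟩

lemma Th_mul (k : ℕ) : ∀ (z z' : Fin k → ZMod p) (f f' : List X → List X) (w : List X),
    Th e k (z + z') (f ∘ f') w = Th e k z f (Th e k z' f' w) := by
  induction k with
  | zero => intro z z' f f' w; rfl
  | succ k ih =>
    intro z z' f f' w
    cases w with
    | nil => rfl
    | cons b w =>
      rw [Th, Th, Th, ← ih, Pi.add_apply, rot_add]
      rfl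

lemma Th_id (k : ℕ) : ∀ (f : List X → List X) (w : List X), (∀ v, v.length ≤ w.length → f v = v) →
    Th e k (0 : Fin k → ZMod p) f w = w := by
  induction k with
  | zero => intro f w h; exact h w le_rfl
  | succ k ih =>
    intro f w h
    cases w with
    | nil => rfl
    | cons b w =>
      rw [Th, Pi.zero_apply, rot_zero]
      congr 1
      exact ih f w (fun v hv => h v (by rw [List.length_cons]; omega))

lemma Ract_add (t : Bool) (s : ℕ → ℕ) (x x' : ℤ) (y y' : ZMod p) :
    Ract e t s (x + x') (y + y') = Ract e t s x y ∘ Ract e t s x' y' := by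
  funext w
  cases w with
  | nil => rfl
  | cons a w =>
    rw [Function.comp_apply, Ract, Ract, Ract]
    split_ifs
    · congr 1
      cases w with
      | nil => rfl
      | cons b w => rw [rotHead, rotHead, rotHead, rot_add]
    · rw [S_add e _ s x x' y y' w le_rfl]

lemma Ract_id (t : Bool) (s : ℕ → ℕ) (L : ℕ) (m : ℤ) (w : List X) (h : w.length ≤ L) :
    Ract e t s (m * (p : ℤ) ^ L) 0 w = w := by
  cases w with
  | nil => rfl
  | cons a w =>
    rw [List.length_cons] at h
    rw [Ract]
    split_ifs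
    · congr 1
      cases w with
      | nil => rfl
      | cons b w => rw [rotHead, rot_zero]
    · rw [S_congr e L s m w (by omega)]

variable (t : Bool) (s : ℕ → ℕ) (k : ℕ)

/-- the acting group -/
abbrev Ga (p k : ℕ) : Type := ℤ × ZMod p × (Fin k → ZMod p)

/-- the action -/
def Phi (g : Ga p k) : List X → List X := Th e k g.2.2 (Ract e t s g.1 g.2.1)

lemma Phi_add (g h : Ga p k) (w : List X) :
    Phi e t s k (g + h) w = Phi e t s k g (Phi e t s k h w) := by
  unfold Phi
  rw [← Th_mul, ← Ract_add]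
  rfl

lemma Phi_id (L : ℕ) (m : ℤ) (w : List X) (h : w.length ≤ L) :
    Phi e t s k (m * (p : ℤ) ^ L, 0, 0) w = w :=
  Th_id e k _ w (fun v hv => Ract_id e t s L m v (hv.trans h))

lemma Phi_zero (w : List X) : Phi e t s k 0 w = w := by
  have := Phi_id e t s k w.length 0 w le_rfl
  rwa [zero_mul] at this

lemma good_Phi (g : Ga p k) : Good (Phi e t s k g) := good_Th e k _ (good_Ract e t s _ _)

/-- the action as a homomorphism -/
def hom : Multiplicative (Ga p k) →* Equiv.Perm (List X) where
  toFun g :=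
    { toFun := Phi e t s k g.toAdd
      invFun := Phi e t s k (-g.toAdd)
      left_inv := fun w => by rw [← Phi_add, neg_add_cancel, Phi_zero]
      right_inv := fun w => by rw [← Phi_add, add_neg_cancel, Phi_zero] }
  map_one' := Equiv.ext fun w => Phi_zero e t s k w
  map_mul' g h := Equiv.ext fun w => Phi_add e t s k g.toAdd h.toAdd w

lemma hom_apply (g : Ga p k) (w : List X) :
    hom e t s k (Multiplicative.ofAdd g) w = Phi e t s k g w := rfl

lemma range_le : (hom e t s k).range ≤ treeAut X := by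
  rintro _ ⟨g', rfl⟩
  obtain ⟨g, hg⟩ : ∃ a : Ga p k, a = g'.toAdd := ⟨_, rfl⟩
  have hgg : hom e t s k g' = hom e t s k (Multiplicative.ofAdd g) := by rw [hg]; rfl
  rw [hgg]
  refine ⟨fun v => (good_Phi e t s k g).len v, fun v w => ⟨?_, ?_⟩⟩
  · rintro ⟨u, rfl⟩
    exact (good_Phi e t s k g).app v u
  · intro h
    have h1 : ∀ v w, Phi e t s k g v <+: Phi e t s k g w → v <+: w := by
      intro v w hvw
      obtain ⟨u, hu⟩ := hvw
      have h2 := (good_Phi e t s k (-g)).app (Phi e t s k g v) u
      rw [hu, ← Phi_add, ← Phi_add, neg_add_cancel, Phi_zero, Phi_zero] at h2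
      exact h2
    exact h1 v w h

lemma range_fg : (hom e t s k).range.FG := by
  have h1 : Module.Finite ℤ (ZMod p) := inferInstance
  have h2 : Module.Finite ℤ (Ga p k) := inferInstance
  have h3 : AddGroup.FG (Ga p k) := Module.Finite.iff_addGroup_fg.mp h2
  have h4 : Group.FG (Multiplicative (Ga p k)) := inferInstance
  exact (Group.fg_iff_subgroup_fg _).mp (Group.fg_range (hom e t s k))

/-! ### the fixed vertices -/

variable [Nonempty Y]

lemma Th_fix (k : ℕ) : ∀ (z : Fin k → ZMod p) (f : List X → List X) (n : ℕ),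
    (∃ w : List X, w.length = n + k ∧ Th e k z f w = w) ↔
      z = 0 ∧ ∃ w : List X, w.length = n ∧ f w = w := by
  induction k with
  | zero =>
    intro z f n
    constructor
    · rintro ⟨w, h1, h2⟩
      exact ⟨Subsingleton.elim _ _, w, h1, h2⟩
    · rintro ⟨_, w, h1, h2⟩
      exact ⟨w, h1, h2⟩
  | succ k ih =>
    intro z f n
    constructor
    · rintro ⟨w, h1, h2⟩
      cases w with
      | nil => simp at h1
      | cons b w =>
        rw [Th, List.cons.injEq, rot_eq_iff] at h2
        obtain ⟨h3, h4⟩ := (ih (fun i => z i.succ) f n).mp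
          ⟨w, by rw [List.length_cons] at h1; omega, h2.2⟩
        refine ⟨?_, h4⟩
        funext i
        refine Fin.cases h2.1 (fun i => ?_) i
        exact congrFun h3 i
    · rintro ⟨rfl, h⟩
      obtain ⟨w, h1, h2⟩ := (ih 0 f n).mpr ⟨rfl, h⟩
      obtain ⟨a, _⟩ := exists_dig e (0 : ZMod p)
      refine ⟨a :: w, by rw [List.length_cons]; omega, ?_⟩
      rw [Th, Pi.zero_apply, rot_zero]
      congr 1

lemma Ract_fix (t : Bool) (s : ℕ → ℕ) (x : ℤ) (y : ZMod p) (L : ℕ) :
    (∃ w : List X, w.length = L + 1 ∧ Ract e t s x y w = w) ↔ (t = true ∧ y = 0) ∨ F e L s x y := by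
  constructor
  · rintro ⟨w, h1, h2⟩
    cases w with
    | nil => simp at h1
    | cons a w =>
      rw [Ract, List.cons.injEq] at h2
      by_cases h : t = true ∧ dig e a = 1
      · rw [if_pos h] at h2
        cases w with
        | nil =>
          right
          rw [List.length_cons, List.length_nil] at h1
          have : L = 0 := by omega
          rw [this]
          exact F_zero e s x y
        | cons b w =>
          left
          have h3 := h2.2
          rw [rotHead, List.cons.injEq, rot_eq_iff] at h3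
          exact ⟨h.1, h3.1⟩
      · rw [if_neg h] at h2
        right
        exact ⟨w, by rw [List.length_cons] at h1; omega, h2.2⟩
  · rintro (⟨rfl, rfl⟩ | ⟨w, h1, h2⟩)
    · obtain ⟨a, ha⟩ := exists_dig e (1 : ZMod p)
      refine ⟨a :: List.replicate L a, by simp, ?_⟩
      rw [Ract, if_pos ⟨rfl, ha⟩]
      congr 1
      cases L with
      | zero => rfl
      | succ L => rw [List.replicate_succ, rotHead, rot_zero]
    · obtain ⟨a, ha⟩ := exists_dig e (0 : ZMod p)
      refine ⟨a :: w, by rw [List.length_cons, h1], ?_⟩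
      have h0 : (0 : ZMod p) ≠ 1 := by
        have : Fact (1 < p) := ⟨hp.out.one_lt⟩
        exact zero_ne_one
      rw [Ract, if_neg (by rw [ha]; tauto), h2]

/-! ### the proportions -/

lemma card_val (N : ℕ) [NeZero N] (P : ℕ → Prop) [DecidablePred P] :
    ((Finset.univ : Finset (ZMod N)).filter (fun a => P a.val)).card =
      ((Finset.range N).filter P).card := by
  apply Finset.card_bij (fun a _ => a.val)
  · intro a ha
    rw [Finset.mem_filter] at ha ⊢
    exact ⟨Finset.mem_range.mpr (ZMod.val_lt a), ha.2⟩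
  · intro a _ b _ h
    exact ZMod.val_injective N h
  · intro b hb
    rw [Finset.mem_filter, Finset.mem_range] at hb
    refine ⟨(b : ZMod N), ?_, ?_⟩
    · rw [Finset.mem_filter, ZMod.val_natCast, Nat.mod_eq_of_lt hb.1]
      exact ⟨Finset.mem_univ _, hb.2⟩
    · rw [ZMod.val_natCast, Nat.mod_eq_of_lt hb.1]

lemma proportion_eq (L : ℕ) : proportion (hom e t s k).range (L + 1 + k) =
    (∑ y : ZMod p, (Nat.card {x : ZMod (p ^ (L + 1 + k)) //
      (t = true ∧ y = 0) ∨ F e L s (x.val : ℤ) y} : ℝ)) / ((p : ℝ) ^ (L + 1 + k) * p * p ^ k) := by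
  classical
  set n := L + 1 + k with hn
  have hne : NeZero (p ^ n) := ⟨pow_ne_zero _ hp.out.ne_zero⟩
  let A : Type := ZMod (p ^ n) × ZMod p × (Fin k → ZMod p)
  let ι : A → Ga p k := fun a => ((a.1.val : ℤ), a.2.1, a.2.2)
  let ψ : A → ({v : List X // v.length = n} → List X) :=
    fun a => restrictLevel n (hom e t s k (Multiplicative.ofAdd (ι a)))
  have hψ' : ∀ a v, ψ a v = Phi e t s k (ι a) v.1 := fun _ _ => rfl
  -- every element of the group acts as some `ψ a`
  have hmod : ∀ (x x' : ℤ) (y : ZMod p) (z : Fin k → ZMod p) (w : List X), w.length = n →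
      ((p : ℤ) ^ n ∣ x - x') → Phi e t s k (x, y, z) w = Phi e t s k (x', y, z) w := by
    intro x x' y z w hw ⟨m, hm⟩
    have h1 : ((x, y, z) : Ga p k) = (x', y, z) + (m * (p : ℤ) ^ n, 0, 0) := by
      rw [Prod.mk_add_mk, Prod.mk_add_mk, add_zero, add_zero]
      congr 1
      rw [mul_comm, ← hm]
      ring
    rw [h1, Phi_add, Phi_id e t s k n m w hw.le]
  have hψadd : ∀ a c (v : {v : List X // v.length = n}),
      ψ (a + c) v = Phi e t s k (ι c) (ψ a v) := by
    intro a c v
    rw [hψ', hψ', ← Phi_add, add_comm (ι c)]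
    apply hmod _ _ _ _ _ v.2
    have h1 := ZMod.val_add a.1 c.1
    show (p : ℤ) ^ n ∣ ((a.1 + c.1).val : ℤ) - ((a.1.val : ℤ) + (c.1.val : ℤ))
    rw [h1]
    push_cast
    rw [← Int.emod_emod_of_dvd _ (dvd_refl _), ← neg_dvd, ← dvd_neg]
    apply Int.dvd_of_emod_eq_zero
    simp [Int.sub_emod]
  have hrange : levelGroup (hom e t s k).range n = Set.range ψ := by
    ext f
    constructor
    · rintro ⟨_, ⟨g, rfl⟩, rfl⟩
      obtain ⟨⟨x, y, z⟩, rfl⟩ : ∃ a : Ga p k, g = Multiplicative.ofAdd a := ⟨g.toAdd, rfl⟩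
      refine ⟨((x : ZMod (p ^ n)), y, z), ?_⟩
      funext v
      rw [hψ']
      apply hmod _ _ _ _ _ v.2
      show (p : ℤ) ^ n ∣ (((x : ZMod (p ^ n)).val : ℤ)) - x
      rw [ZMod.val_intCast]
      rw [Int.emod_def]
      push_cast
      exact ⟨-(x / (p : ℤ) ^ n), by ring⟩
    · rintro ⟨a, rfl⟩
      exact ⟨_, ⟨_, rfl⟩, rfl⟩
  unfold proportion
  rw [hrange]
  have h1 := ratio ψ (by
    intro a b c hab
    funext v
    rw [hψadd, hψadd, hab]) {f | ∃ v, f v = v.1}
  have h2 : {z | z ∈ Set.range ψ ∧ z ∈ {f : {v : List X // v.length = n} → List X | ∃ v, f v = v.1}}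
      = {f | f ∈ Set.range ψ ∧ ∃ v, f v = v.1} := rfl
  rw [h2] at h1
  rw [h1]
  congr 1
  · have h3 : ∀ a : A, ψ a ∈ {f : {v : List X // v.length = n} → List X | ∃ v, f v = v.1} ↔
        a.2.2 = 0 ∧ ((t = true ∧ a.2.1 = 0) ∨ F e L s (a.1.val : ℤ) a.2.1) := by
      intro a
      rw [← Ract_fix e t s _ _ L, ← Th_fix e k a.2.2 (Ract e t s (a.1.val : ℤ) a.2.1) (L + 1)]
      constructor
      · rintro ⟨v, hv⟩
        exact ⟨v.1, v.2, hv⟩
      · rintro ⟨w, hw, h⟩
        exact ⟨⟨w, hw⟩, h⟩
    have e1 : {a : A // ψ a ∈ {f : {v : List X // v.length = n} → List X | ∃ v, f v = v.1}} ≃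
        Σ y : ZMod p, {x : ZMod (p ^ n) // (t = true ∧ y = 0) ∨ F e L s (x.val : ℤ) y} :=
      { toFun := fun a => ⟨a.1.2.1, a.1.1, ((h3 a.1).mp a.2).2⟩
        invFun := fun b => ⟨(b.2.1, b.1, 0), (h3 _).mpr ⟨rfl, b.2.2⟩⟩
        left_inv := by
          rintro ⟨⟨x, y, z⟩, ha⟩
          have h4 : z = 0 := ((h3 _).mp ha).1
          subst h4
          rfl
        right_inv := fun b => rfl }
    rw [Nat.card_congr e1, Nat.card_sigma]
    push_cast
    rfl
  · have h3 : Fintype.card A = p ^ n * (p * p ^ k) := by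
      show Fintype.card (ZMod (p ^ n) × ZMod p × (Fin k → ZMod p)) = _
      rw [Fintype.card_prod, Fintype.card_prod, ZMod.card, ZMod.card, Fintype.card_fun, ZMod.card,
        Fintype.card_fin]
    rw [h3]
    push_cast
    ring

lemma card_F (L M : ℕ) (hLM : L ≤ M) (hs : ∀ n, s n < p) (y : ZMod p)
    (hy : y ≠ 0 ∨ ∀ n, s n = 0) :
    (Nat.card {x : ZMod (p ^ M) // F e L s (x.val : ℤ) y} : ℝ) = (p : ℝ) ^ M * dens p L s := by
  classical
  have hne : NeZero (p ^ M) := ⟨pow_ne_zero _ hp.out.ne_zero⟩
  rw [← cnt_eq e L M s y hLM hs hy, Nat.card_eq_fintype_card, Fintype.card_subtype,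
    card_val (p ^ M) (fun x => F e L s (x : ℤ) y)]
  rfl

lemma proportion_true (L : ℕ) (hs : ∀ n, s n < p) :
    proportion (hom e true s k).range (L + 1 + k) =
      (1 / p : ℝ) ^ k * (1 / p + (1 - 1 / p) * dens p L s) := by
  classical
  have hp0 : (p : ℝ) ≠ 0 := by exact_mod_cast hp.out.ne_zero
  have hne : NeZero (p ^ (L + 1 + k)) := ⟨pow_ne_zero _ hp.out.ne_zero⟩
  rw [proportion_eq]
  have h1 : ∀ y : ZMod p, (Nat.card {x : ZMod (p ^ (L + 1 + k)) //
      (true = true ∧ y = 0) ∨ F e L s (x.val : ℤ) y} : ℝ) =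
      if y = 0 then (p : ℝ) ^ (L + 1 + k) else (p : ℝ) ^ (L + 1 + k) * dens p L s := by
    intro y
    by_cases hy : y = 0
    · rw [if_pos hy]
      have : ∀ x : ZMod (p ^ (L + 1 + k)), (true = true ∧ y = 0) ∨ F e L s (x.val : ℤ) y :=
        fun x => Or.inl ⟨rfl, hy⟩
      rw [Nat.card_congr (Equiv.subtypeUnivEquiv this), Nat.card_eq_fintype_card, ZMod.card]
      push_cast
      rfl
    · rw [if_neg hy, ← card_F e s L (L + 1 + k) (by omega) hs y (Or.inl hy)]
      exact congrArg (Nat.cast : ℕ → ℝ) (Nat.card_congr (Equiv.subtypeEquivRight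
        fun x => by simp [hy]))
  rw [Finset.sum_congr rfl (fun y _ => h1 y), Finset.sum_ite, Finset.sum_const, Finset.sum_const,
    Finset.filter_eq' Finset.univ (0 : ZMod p), if_pos (Finset.mem_univ _), Finset.card_singleton,
    Finset.filter_ne' Finset.univ (0 : ZMod p), Finset.card_erase_of_mem (Finset.mem_univ _),
    Finset.card_univ, ZMod.card, one_smul, nsmul_eq_mul, Nat.cast_sub hp.out.one_lt.le, Nat.cast_one,
    one_div, inv_pow]
  field_simp

lemma proportion_false (L : ℕ) :
    proportion (hom e false (fun _ => 0) k).range (L + 1 + k) =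
      (1 / p : ℝ) ^ k * dens p L (fun _ => 0) := by
  classical
  have hp0 : (p : ℝ) ≠ 0 := by exact_mod_cast hp.out.ne_zero
  have hne : NeZero (p ^ (L + 1 + k)) := ⟨pow_ne_zero _ hp.out.ne_zero⟩
  rw [proportion_eq]
  have h1 : ∀ y : ZMod p, (Nat.card {x : ZMod (p ^ (L + 1 + k)) //
      (false = true ∧ y = 0) ∨ F e L (fun _ => 0) (x.val : ℤ) y} : ℝ) =
      (p : ℝ) ^ (L + 1 + k) * dens p L (fun _ => 0) := by
    intro y
    rw [← card_F e (fun _ => 0) L (L + 1 + k) (by omega) (fun _ => hp.out.pos) y
      (Or.inr fun _ => rfl)]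
    exact congrArg (Nat.cast : ℕ → ℝ) (Nat.card_congr (Equiv.subtypeEquivRight
      fun x => by simp))
  rw [Finset.sum_congr rfl (fun y _ => h1 y), Finset.sum_const, Finset.card_univ, ZMod.card,
    nsmul_eq_mul, one_div, inv_pow]
  field_simp

end action

/-- For every `d ≥ 2`, every number in `[0, 1]` is the fixed-point proportion of a finitely
generated group of automorphisms of the `d`-regular rooted tree. -/
theorem result (d : ℕ) (hd : 2 ≤ d) (α : ℝ) (h0 : 0 ≤ α) (h1 : α ≤ 1) :
    ∃ G : Subgroup (Equiv.Perm (List (Fin d))), G ≤ treeAut (Fin d) ∧ G.FG ∧ HasFPP G α := by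
  obtain ⟨p, hp, q, hq⟩ := Nat.exists_prime_and_dvd (show d ≠ 1 by omega)
  have hpf : Fact p.Prime := ⟨hp⟩
  have hq0 : 0 < q := by
    rcases Nat.eq_zero_or_pos q with h | h
    · rw [h, mul_zero] at hq
      omega
    · exact h
  have e : Fin d ≃ ZMod p × Fin q := by
    apply Fintype.equivOfCardEq
    rw [Fintype.card_fin, Fintype.card_prod, ZMod.card, Fintype.card_fin, hq]
  have : Nonempty (Fin q) := ⟨⟨0, hq0⟩⟩
  have hp0 : (0 : ℝ) < p := by exact_mod_cast hp.pos
  have hp1 : (1 : ℝ) < p := by exact_mod_cast hp.one_lt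
  rcases h0.eq_or_lt with h | h
  · refine ⟨_, range_le e false (fun _ => 0) 0, range_fg e false (fun _ => 0) 0, ?_⟩
    unfold HasFPP
    rw [← tendsto_add_atTop_iff_nat 1, ← h]
    have h2 : ∀ L, proportion (hom e false (fun _ => 0) 0).range (L + 1) =
        dens p L (fun _ => 0) := by
      intro L
      have := proportion_false e 0 L
      rwa [pow_zero, one_mul] at this
    simp only [h2]
    have h5 : Tendsto (fun L : ℕ => (1 / p : ℝ) ^ (L / 2)) atTop (𝓝 0) := by
      have h6 : Tendsto (fun L : ℕ => L / 2) atTop atTop :=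
        Nat.tendsto_div_const_atTop (by norm_num)
      have h7 : (1 / p : ℝ) < 1 := by
        rw [div_lt_one hp0]
        exact hp1
      exact (tendsto_pow_atTop_nhds_zero_of_lt_one (by positivity) h7).comp h6
    exact squeeze_zero (fun L => (dens_zero_seq L).2) (fun L => (dens_zero_seq L).1) h5
  · obtain ⟨k, hk1, hk2⟩ := exists_nat_pow_near_of_lt_one h h1 (show (0 : ℝ) < 1 / p by positivity)
      (by rw [div_lt_one hp0]; exact hp1)
    -- the remaining factor
    set γ : ℝ := α * (p : ℝ) ^ k with hγ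
    have hγ1 : 1 / (p : ℝ) ≤ γ := by
      rw [hγ]
      rw [pow_succ, one_div, inv_pow] at hk1
      rw [one_div]
      calc (p : ℝ)⁻¹ = ((p : ℝ) ^ k)⁻¹ * (p : ℝ)⁻¹ * (p : ℝ) ^ k := by field_simp
        _ ≤ α * (p : ℝ) ^ k := mul_le_mul_of_nonneg_right hk1.le (by positivity)
    have hγ2 : γ ≤ 1 := by
      rw [hγ]
      rw [one_div, inv_pow] at hk2
      calc α * (p : ℝ) ^ k ≤ ((p : ℝ) ^ k)⁻¹ * (p : ℝ) ^ k :=
            mul_le_mul_of_nonneg_right hk2 (by positivity)
        _ = 1 := by field_simp
    have hp2 : 0 < 1 - 1 / (p : ℝ) := by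
      rw [sub_pos, div_lt_one hp0]
      exact hp1
    obtain ⟨s, hs, hlim⟩ := exists_digits (p := p) ((γ - 1 / p) / (1 - 1 / p))
      (div_nonneg (by linarith) hp2.le) (by rw [div_le_one hp2]; linarith)
    refine ⟨_, range_le e true s k, range_fg e true s k, ?_⟩
    unfold HasFPP
    rw [← tendsto_add_atTop_iff_nat (1 + k)]
    have h2 : ∀ L, proportion (hom e true s k).range (L + (1 + k)) =
        (1 / p : ℝ) ^ k * (1 / p + (1 - 1 / p) * dens p L s) := by
      intro L
      rw [← add_assoc]
      exact proportion_true e s k L hs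
    simp only [h2]
    have h3 : α = (1 / p : ℝ) ^ k * (1 / p + (1 - 1 / p) * ((γ - 1 / p) / (1 - 1 / p))) := by
      rw [mul_div_cancel₀ _ hp2.ne', hγ, one_div, inv_pow]
      field_simp
      ring
    rw [h3]
    exact (tendsto_const_nhds.add (tendsto_const_nhds.mul hlim)).const_mul _

end Pool.Agent.Results.MP_80cb54_al.AllValues
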